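import Pool.Agent.Lib.MP_f11a48_ag.helper16.Obj

/-!
# Hodge classes of objects with complex multiplication

`M` is a polarised de Rham-Betti object with complex multiplication by `(E, ρ)` (`CM.CMObj`), and
`p σ` is the Hodge number of the `σ`-eigenline of `M_B ⊗ ℂ = E ⊗ ℂ` (of type `(p σ, w - p σ)`).
-/

namespace Pool.Agent.Lib.MPf11a48.AbCM

open Matrix Module Pool.Agent.Lib.MPf11a48.CM

variable {K : IntermediateField ℚ ℂ} {ι E : Type} [Fintype ι] [DecidableEq ι]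
  [CommRing E] [Algebra ℚ E] {ρ : E ≃ₐ[ℚ] E} [Fintype (Emb E)]

/-- The Hodge type of the character `χ` of the torus of `E`, as a function on the Galois group:
`γ ↦ ∑ σ, χ σ * p (γ ∘ σ)`. -/
noncomputable def typ (p χ : Emb E → ℤ) (γ : Qbar ≃ₐ[ℚ] Qbar) : ℤ :=
  ∑ σ, χ σ * p (gal γ σ)

/-- The complex points of the Mumford-Tate group of the Hodge structure `E` of type `p`: the
elements of `E ⊗ ℂ`, acting by multiplication, killed by all characters of Hodge type `0`. -/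
def MT (b : Basis ι ℚ E) (p : Emb E → ℤ) : Set (GL ι ℂ) :=
  {g | ∃ t : Emb E → ℂ,
    (∀ χ : Emb E → ℤ, (∀ γ, typ p χ γ = 0) → ∏ σ, t σ ^ χ σ = 1) ∧
    ∀ σ i, ∑ j, ((σ (b j) : Qbar) : ℂ) * g.1 j i = t σ * ((σ (b i) : Qbar) : ℂ)}

/-- A rational tensor is a Hodge tensor if the Mumford-Tate group fixes it. -/
def IsHodge (b : Basis ι ℚ E) (p : Emb E → ℤ) {n m : ℕ} (u : TIdx ι n m → ℚ) : Prop :=
  ∀ g ∈ MT b p, ∀ I, ∑ J, tens n m g.1 g⁻¹.1 I J * (u J : ℂ) = (u I : ℂ)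

/-- The de Rham-Betti classes over `K` on the tensor spaces of `M` that are Hodge classes. -/
def hodgeClasses (M : CMObj K ι E ρ) (p : Emb E → ℤ) : Set (TPair K ι) :=
  {α | IsHodge M.b p α.B ∧ Fixes M.c α}

/-- The Hodge classes of `M` are absolutely Hodge: every Hodge tensor is the Betti component of a
de Rham-Betti class over `Qbar`, whose conjugates over `K` are again Hodge classes. -/
def AbsHodge (M : CMObj K ι E ρ) (p : Emb E → ℤ) : Prop :=
  ∀ (n m : ℕ) (u : TIdx ι n m → ℚ), IsHodge M.b p u →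
    ∃ v : TIdx ι n m → Qbar, Fixes (K := Qbar) M.c ⟨n, m, v, u⟩ ∧
      ∀ γ : Qbar ≃ₐ[ℚ] Qbar, (∀ z : Qbar, (z : ℂ) ∈ K → γ z = z) →
        ∃ u' : TIdx ι n m → ℚ, IsHodge M.b p u' ∧
          Fixes (K := Qbar) M.c ⟨n, m, fun J => γ (v J), u'⟩

/-- `z` is a period of the `σ`-eigenline: it is the ratio of a nonzero vector of the
`σ`-eigenspace of `M_dR ⊗ Qbar` by a vector of `M_B ⊗ Qbar`. -/
def IsPeriod (M : CMObj K ι E ρ) (σ : Emb E) (z : ℂ) : Prop :=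
  z ≠ 0 ∧ ∃ x : ι → Qbar, x ≠ 0 ∧ (∀ a, M.AdR a *ᵥ x = σ a • x) ∧
    ∀ i, ∃ y : Qbar, (M.c.1 *ᵥ fun j => (x j : ℂ)) i = z * (y : ℂ)

/-- The period of the character `χ` and those of all its Galois conjugates are algebraic. -/
def AlgPeriods (M : CMObj K ι E ρ) (χ : Emb E → ℤ) : Prop :=
  ∃ s : Emb E → ℂ, (∀ σ, IsPeriod M σ (s σ)) ∧ InCore s χ

/-- The absolute Galois group of `ℚ`. -/
abbrev GQ : Type := Qbar ≃ₐ[ℚ] Qbar

/-- A CM type, as a function on the Galois group. -/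
def IsCMType (Φ : GQ → ℤ) : Prop :=
  (∀ γ, Φ γ = 0 ∨ Φ γ = 1) ∧ ∀ γ, Φ γ + Φ (ccQ * γ) = 1

/-- `ψ` is a character of the Galois group of the field generated by the images of the embeddings
of `E`, and `Φ` is a CM type of the cyclic CM field fixed by the kernel of `ψ`. -/
def IsCyclicCMType (E : Type) [CommRing E] [Algebra ℚ E] (ψ : GQ →* ℂ) (Φ : GQ → ℤ) : Prop :=
  (∀ γ : GQ, (∀ σ : Emb E, gal γ σ = σ) → ψ γ = 1) ∧
    (∀ γ δ, ψ γ = ψ δ → Φ γ = Φ δ) ∧ IsCMType Φ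

/-- `M` has no exotic relation: if `Φ₁ ≠ Φ₂` are CM types of a cyclic CM field contained in the
field generated by the images of the embeddings of `E`, and the Hodge type of the character `χ` is
a positive multiple of `Φ₁ - Φ₂`, then the period of `χ` or the period of one of its Galois
conjugates is transcendental. -/
def NoExotic (M : CMObj K ι E ρ) (p : Emb E → ℤ) : Prop :=
  ∀ (ψ : GQ →* ℂ) (Φ₁ Φ₂ : GQ → ℤ), IsCyclicCMType E ψ Φ₁ → IsCyclicCMType E ψ Φ₂ → Φ₁ ≠ Φ₂ →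
    ∀ (χ : Emb E → ℤ) (n : ℕ), 0 < n → (∀ γ : GQ, typ p χ γ = n * (Φ₁ γ - Φ₂ γ)) →
      ¬ AlgPeriods M χ

end Pool.Agent.Lib.MPf11a48.AbCM
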